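import Pool.Agent.H247.VE.Stm2

set_option autoImplicit false

/-!
# Project VE, EPS: isolated invariant neighbourhoods of chain classes
-/

open scoped Topology
open Filter Set Metric

universe u

namespace Pool.Agent.H399.VE

open Pool.Agent.R774.OS (CR mem_CR Ch unif isClosed_CR)
open Pool.Agent.Q182.MC (ChainTo cls R R_mono chainTo_iff back_image)
open Pool.Agent.H247.VE (S_EPS)

section

variable {X : Type u} [MetricSpace X] [CompactSpace X]

theorem ch_trans {F : X → X} {δ : ℝ} {z : X} (h : Ch F δ z) :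
    Relation.TransGen (R F univ δ) z z := by
  obtain ⟨m, Y, h1, h2, h3, h4⟩ := h
  have key : ∀ k : ℕ, Relation.TransGen (R F univ δ) (Y 0) (Y (k + 1)) := by
    intro k
    induction k with
    | zero => exact Relation.TransGen.single ⟨mem_univ _, mem_univ _, h4 0⟩
    | succ k ih => exact ih.tail ⟨mem_univ _, mem_univ _, h4 (k + 1)⟩
  have h5 := key (m - 1)
  have h6 : Y (m - 1 + 1) = z := by
    rw [Nat.sub_add_cancel h1]
    have h7 := h3 0
    rw [zero_add] at h7
    rw [h7, h2]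
  rwa [h6, h2] at h5

theorem cr_trans {F : X → X} {y : X} (hy : y ∈ CR F) {ε : ℝ} (hε : 0 < ε) :
    Relation.TransGen (R F univ ε) y y := ch_trans (mem_CR.1 hy ε hε)

/-- near points are equivalent -/
theorem near_eqv {F : X → X} (hF : Continuous F) {ε : ℝ} (hε : 0 < ε) :
    ∃ d > 0, ∀ y y' : X, y ∈ CR F → dist y y' < d →
      Relation.TransGen (R F univ ε) y y' ∧ Relation.TransGen (R F univ ε) y' y := by
  have hε2 : 0 < ε / 2 := by linarith
  obtain ⟨δ, hδ, hu⟩ := unif hF hε2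
  refine ⟨min δ (ε / 2), lt_min hδ hε2, fun y y' hy hd => ?_⟩
  have hd1 := hd.trans_le (min_le_left _ _)
  have hd2 := hd.trans_le (min_le_right _ _)
  have hyy := cr_trans hy hε2
  have hm : ∀ a b : X, Relation.ReflTransGen (R F univ (ε / 2)) a b →
      Relation.ReflTransGen (R F univ ε) a b := fun a b h =>
    Relation.ReflTransGen.mono (fun _ _ hxy => R_mono (by linarith) hxy) _ _ h
  constructor
  · obtain ⟨b, hr, hb⟩ := Relation.TransGen.tail'_iff.1 hyy
    refine Relation.TransGen.tail' (hm _ _ hr) ⟨mem_univ _, mem_univ _, ?_⟩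
    calc dist (F b) y' ≤ dist (F b) y + dist y y' := dist_triangle _ _ _
      _ < ε / 2 + ε / 2 := add_lt_add hb.2.2 hd2
      _ = ε := by ring
  · obtain ⟨b, hb, hr⟩ := Relation.TransGen.head'_iff.1 hyy
    refine Relation.TransGen.head' ⟨mem_univ _, mem_univ _, ?_⟩ (hm _ _ hr)
    have h1 : dist (F y') (F y) < ε / 2 := by
      rw [dist_comm]
      exact hu _ _ hd1
    calc dist (F y') b ≤ dist (F y') (F y) + dist (F y) b := dist_triangle _ _ _
      _ < ε / 2 + ε / 2 := add_lt_add h1 hb.2.2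
      _ = ε := by ring

/-- the points equivalent to `x` for the jumps less than `ε` -/
def PP (F : X → X) (x : X) (ε : ℝ) : Set X :=
  {y | y ∈ CR F ∧ Relation.TransGen (R F univ ε) x y ∧ Relation.TransGen (R F univ ε) y x}

theorem PP_mono {F : X → X} {x : X} {δ ε : ℝ} (h : δ ≤ ε) : PP F x δ ⊆ PP F x ε :=
  fun _ hy => ⟨hy.1, Relation.TransGen.mono (fun _ _ hxy => R_mono h hxy) _ _ hy.2.1,
    Relation.TransGen.mono (fun _ _ hxy => R_mono h hxy) _ _ hy.2.2⟩

theorem PP_closed {F : X → X} (hF : Continuous F) (x : X) {ε : ℝ} (hε : 0 < ε) :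
    IsClosed (PP F x ε) ∧ IsClosed (CR F \ PP F x ε) := by
  obtain ⟨d, hd, hn⟩ := near_eqv hF hε
  constructor
  · rw [← closure_subset_iff_isClosed]
    intro y hy
    have hyC : y ∈ CR F := (isClosed_CR hF).closure_subset_iff.2 (fun _ h => h.1) hy
    obtain ⟨y', hy', hdy⟩ := Metric.mem_closure_iff.1 hy d hd
    obtain ⟨h1, h2⟩ := hn y y' hyC hdy
    exact ⟨hyC, hy'.2.1.trans h2, h1.trans hy'.2.2⟩
  · rw [← closure_subset_iff_isClosed]
    intro y hy
    have hyC : y ∈ CR F := (isClosed_CR hF).closure_subset_iff.2 (fun _ h => h.1) hy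
    obtain ⟨y', hy', hdy⟩ := Metric.mem_closure_iff.1 hy d hd
    obtain ⟨h1, h2⟩ := hn y y' hyC hdy
    exact ⟨hyC, fun h => hy'.2 ⟨hy'.1, h.2.1.trans h1, h2.trans h.2.2⟩⟩

theorem img_eqv (F : X ≃ₜ X) {y : X} (hy : y ∈ CR (F : X → X)) {ε : ℝ} (hε : 0 < ε) :
    Relation.TransGen (R (F : X → X) univ ε) y (F y) ∧
      Relation.TransGen (R (F : X → X) univ ε) (F y) y := by
  refine ⟨Relation.TransGen.single ⟨mem_univ _, mem_univ _, ?_⟩, ?_⟩
  · rw [dist_self]
    exact hε
  · have h : ChainTo (F : X → X) univ y y := chainTo_iff.2 fun δ hδ => cr_trans hy hδ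
    exact chainTo_iff.1 (back_image F (fun _ _ => mem_univ _) h) ε hε

end

/-- **EPS** -/
theorem main : S_EPS.{u} := by
  intro X _ _ F x hx O hO hcls
  have hF : Continuous (F : X → X) := F.continuous
  obtain ⟨ε, hε, hPO⟩ : ∃ ε > 0, PP (F : X → X) x ε ⊆ O := by
    by_contra hcon
    push Not at hcon
    have hpos : ∀ k : ℕ, (0 : ℝ) < 1 / ((k : ℝ) + 1) := fun k => by positivity
    have hne := IsCompact.nonempty_iInter_of_sequence_nonempty_isCompact_isClosed
      (fun k : ℕ => PP (F : X → X) x (1 / ((k : ℝ) + 1)) ∩ Oᶜ)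
      (fun k => inter_subset_inter_left _ (PP_mono (one_div_le_one_div_of_le (by positivity)
        (by push_cast; linarith))))
      (fun k => by
        obtain ⟨y, hy, hyO⟩ := not_subset.1 (hcon _ (hpos k))
        exact ⟨y, hy, hyO⟩)
      ((PP_closed hF x (hpos 0)).1.inter hO.isClosed_compl).isCompact
      (fun k => (PP_closed hF x (hpos k)).1.inter hO.isClosed_compl)
    obtain ⟨y, hy⟩ := hne
    rw [mem_iInter] at hy
    have hall : ∀ δ > 0, y ∈ PP (F : X → X) x δ := by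
      intro δ hδ
      obtain ⟨k, hk⟩ := exists_nat_one_div_lt hδ
      exact PP_mono hk.le (hy k).1
    exact (hy 0).2 (hcls ⟨chainTo_iff.2 fun δ hδ => (hall δ hδ).2.1,
      chainTo_iff.2 fun δ hδ => (hall δ hδ).2.2⟩)
  refine ⟨PP (F : X → X) x ε, ⟨hx, cr_trans hx hε, cr_trans hx hε⟩, hPO, fun y hy => hy.1,
    (PP_closed hF x hε).1, (PP_closed hF x hε).2, ?_, ?_⟩
  · intro y hy
    obtain ⟨h1, h2⟩ := img_eqv F hy.1 hε
    exact ⟨Pool.Agent.K7.H85.KH.cr_fwd hF hy.1, hy.2.1.trans h1, h2.trans hy.2.2⟩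
  · intro y hy
    obtain ⟨h1, h2⟩ := img_eqv F hy.1 hε
    refine ⟨Pool.Agent.K7.H85.KH.cr_fwd hF hy.1, fun h => hy.2 ⟨hy.1, h.2.1.trans h2, h1.trans h.2.2⟩⟩

end Pool.Agent.H399.VE
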